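import Mathlib

namespace Pool.Agent.Results.MP_aad82b_nt.Full

theorem aux (n a b : ℕ) (h : 2 ^ a ≡ 1 [MOD n]) : 2 ^ (a * b) ≡ 1 [MOD n] := by
  have := h.pow b
  rwa [← pow_mul, one_pow] at this

theorem result : ∃ n : ℕ, 2 ≤ n ∧ n % 10 = 9 ∧ 2 ^ (n - 2) ≡ 1 [MOD n] := by
  have h : ∀ n, n = 1210344599 → 2 ^ (n - 2) ≡ 1 [MOD n] := fun n hn => by
    have e : n - 2 = 1549737 * 781 := by omega
    rw [e]
    generalize 781 = b
    refine aux n _ b ?_
    rw [hn]; decide +kernel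
  exact ⟨1210344599, by norm_num, by norm_num, h _ rfl⟩

end Pool.Agent.Results.MP_aad82b_nt.Full
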